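import Pool.Agent.WIR.StmtsB

/-!
# WIR row BIU (variation of the binomial weights)
-/

set_option autoImplicit false

open scoped BigOperators

namespace Pool.Agent.WIR.H2

theorem choose_mono_half (s r t : ℕ) (hrt : r ≤ t) (ht : t ≤ s / 2) : s.choose r ≤ s.choose t := by
  induction t, hrt using Nat.le_induction with
  | base => exact le_rfl
  | succ t hrt ih =>
    exact (ih (by omega)).trans (Nat.choose_le_succ_of_lt_half_left (by omega))

theorem choose_le_of_add_le (s r t : ℕ) (hrt : r ≤ t) (h : r + t ≤ s) :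
    s.choose r ≤ s.choose t := by
  by_cases ht : t ≤ s / 2
  · exact choose_mono_half s r t hrt ht
  · have h1 : s.choose t = s.choose (s - t) := (Nat.choose_symm (by omega)).symm
    rw [h1]
    exact choose_mono_half s r (s - t) (by omega) (by omega)

theorem choose_ge_of_le_add (s r : ℕ) (h : s ≤ 2 * r + 2) : s.choose (r + 2) ≤ s.choose r := by
  by_cases h1 : s < r + 2
  · rw [Nat.choose_eq_zero_of_lt h1]
    exact Nat.zero_le _
  · have e1 : s.choose (r + 2) = s.choose (s - (r + 2)) := (Nat.choose_symm (by omega)).symm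
    have e2 : s.choose r = s.choose (s - r) := (Nat.choose_symm (by omega)).symm
    rw [e1, e2]
    exact choose_le_of_add_le s _ _ (by omega) (by omega)

theorem central_sq (n : ℕ) : n.centralBinom ^ 2 * (2 * n + 1) ≤ 16 ^ n := by
  induction n with
  | zero => simp
  | succ n ih =>
    have h1 := Nat.succ_mul_centralBinom_succ n
    have h2 : (n + 1) ^ 2 * ((n + 1).centralBinom ^ 2 * (2 * (n + 1) + 1))
        = 4 * ((2 * n + 1) * (2 * n + 3)) * (n.centralBinom ^ 2 * (2 * n + 1)) := by
      calc (n + 1) ^ 2 * ((n + 1).centralBinom ^ 2 * (2 * (n + 1) + 1))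
          = ((n + 1) * (n + 1).centralBinom) ^ 2 * (2 * n + 3) := by ring
        _ = (2 * (2 * n + 1) * n.centralBinom) ^ 2 * (2 * n + 3) := by rw [h1]
        _ = _ := by ring
    have h3 : (2 * n + 1) * (2 * n + 3) ≤ 4 * (n + 1) ^ 2 := by nlinarith
    have h4 : (n + 1) ^ 2 * ((n + 1).centralBinom ^ 2 * (2 * (n + 1) + 1))
        ≤ (n + 1) ^ 2 * 16 ^ (n + 1) := by
      rw [h2]
      calc 4 * ((2 * n + 1) * (2 * n + 3)) * (n.centralBinom ^ 2 * (2 * n + 1))
          ≤ 4 * (4 * (n + 1) ^ 2) * 16 ^ n :=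
            Nat.mul_le_mul (Nat.mul_le_mul_left _ h3) ih
        _ = _ := by ring
    exact Nat.le_of_mul_le_mul_left h4 (by positivity)

theorem middle_sq (s : ℕ) : (s.choose (s / 2)) ^ 2 * (s + 1) ≤ 4 ^ s := by
  obtain ⟨n, hn | hn⟩ := Nat.even_or_odd' s
  · subst hn
    have h1 : 2 * n / 2 = n := by omega
    have h2 := central_sq n
    rw [Nat.centralBinom] at h2
    rw [h1, pow_mul]
    exact h2
  · subst hn
    have h1 : (2 * n + 1) / 2 = n := by omega
    have h2 := central_sq (n + 1)
    have h3 : (n + 1).centralBinom = 2 * (2 * n + 1).choose n := by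
      rw [Nat.centralBinom]
      have e1 : 2 * (n + 1) = (2 * n + 1) + 1 := by ring
      rw [e1, Nat.choose_succ_succ]
      have e2 : (2 * n + 1).choose (n + 1) = (2 * n + 1).choose n := by
        have := Nat.choose_symm_half n
        exact this
      rw [e2]; ring
    rw [h3] at h2
    rw [h1]
    have h4 : (16 : ℕ) ^ (n + 1) = 4 * 4 ^ (2 * n + 1) := by
      have : (16 : ℕ) = 4 ^ 2 := by norm_num
      rw [this, ← pow_mul]
      ring
    rw [h4] at h2
    have h5 : (2 * (2 * n + 1).choose n) ^ 2 * (2 * (n + 1) + 1)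
        = 4 * (((2 * n + 1).choose n) ^ 2 * (2 * n + 1 + 1) + ((2 * n + 1).choose n) ^ 2) := by
      ring
    rw [h5] at h2
    have h6 := Nat.le_of_mul_le_mul_left h2 (by norm_num : 0 < 4)
    omega

theorem choose_bound (s r : ℕ) :
    (s.choose r : ℝ) * (1 / 2 : ℝ) ^ s ≤ 1 / Real.sqrt (s + 1) := by
  have h1 : (s.choose r : ℝ) ≤ (s.choose (s / 2) : ℝ) := by
    exact_mod_cast Nat.choose_le_middle r s
  have h2 : ((s.choose (s / 2) : ℝ)) ^ 2 * ((s : ℝ) + 1) ≤ 4 ^ s := by
    exact_mod_cast middle_sq s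
  have hs : (0 : ℝ) < (s : ℝ) + 1 := by positivity
  have h3 : (s.choose (s / 2) : ℝ) * Real.sqrt ((s : ℝ) + 1) ≤ 2 ^ s := by
    refine abs_le_of_sq_le_sq' ?_ (by positivity) |>.2
    rw [mul_pow, Real.sq_sqrt hs.le, ← pow_mul, mul_comm s 2, pow_mul]
    norm_num
    exact h2
  have h4 : 0 < Real.sqrt ((s : ℝ) + 1) := Real.sqrt_pos.mpr hs
  rw [le_div_iff₀ h4]
  have h5 : (1 / 2 : ℝ) ^ s * 2 ^ s = 1 := by
    rw [← mul_pow]; norm_num
  calc (s.choose r : ℝ) * (1 / 2 : ℝ) ^ s * Real.sqrt ((s : ℝ) + 1)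
      ≤ (s.choose (s / 2) : ℝ) * (1 / 2 : ℝ) ^ s * Real.sqrt ((s : ℝ) + 1) := by
        refine mul_le_mul_of_nonneg_right (mul_le_mul_of_nonneg_right h1 (by positivity)) h4.le
    _ = (1 / 2 : ℝ) ^ s * ((s.choose (s / 2) : ℝ) * Real.sqrt ((s : ℝ) + 1)) := by ring
    _ ≤ (1 / 2 : ℝ) ^ s * 2 ^ s := mul_le_mul_of_nonneg_left h3 (by positivity)
    _ = 1 := h5

/-- variation of a unimodal sequence -/
theorem variation_unimodal (q : ℕ → ℝ) (K : ℕ) (M : ℝ) (h0 : ∀ k, 0 ≤ q k) (hM : ∀ k, q k ≤ M)
    (h1 : ∀ k, k < K → q k ≤ q (k + 1)) (h2 : ∀ k, K ≤ k → q (k + 1) ≤ q k) (n : ℕ) :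
    ∑ k ∈ Finset.range n, |q (k + 1) - q k| ≤ 2 * M := by
  have key : ∀ n, ∑ k ∈ Finset.range n, |q (k + 1) - q k|
      ≤ if n ≤ K then q n else 2 * q K - q n := by
    intro n
    induction n with
    | zero => simp [h0 0]
    | succ n ih =>
      rw [Finset.sum_range_succ]
      by_cases hn : n + 1 ≤ K
      · have hn' : n ≤ K := by omega
        rw [if_pos hn'] at ih
        rw [if_pos hn, abs_of_nonneg (by have := h1 n (by omega); linarith)]
        linarith
      · rw [if_neg hn, abs_of_nonpos (by have := h2 n (by omega); linarith)]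
        by_cases hn' : n ≤ K
        · have : n = K := by omega
          subst this
          rw [if_pos le_rfl] at ih
          linarith
        · rw [if_neg hn'] at ih
          linarith
  refine (key n).trans ?_
  split_ifs
  · have := hM n; have := h0 n; linarith
  · have := hM K; have := h0 n; linarith

theorem sum_choose_le (s N : ℕ) : ∑ r ∈ Finset.range N, s.choose r ≤ 2 ^ s := by
  rw [← Nat.sum_range_choose s]
  by_cases h : N ≤ s + 1
  · exact Finset.sum_le_sum_of_subset (Finset.range_mono h)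
  · have h1 : Finset.range (s + 1) ⊆ Finset.range N := Finset.range_mono (by omega)
    rw [← Finset.sum_subset h1]
    intro x _ hx
    rw [Finset.mem_range, not_lt] at hx
    exact Nat.choose_eq_zero_of_lt (by omega)

/-- **Row BIU**. -/
theorem biu : BiuStmt := by
  intro s e he
  constructor
  · intro n
    have h1 : ∑ k ∈ Finset.range n, s.choose (2 * k + e) ≤ 2 ^ s := by
      have h2 : ∑ k ∈ Finset.range n, s.choose (2 * k + e)
          = ∑ r ∈ (Finset.range n).image (fun k => 2 * k + e), s.choose r := by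
        rw [Finset.sum_image]
        intro a _ b _ hab
        simp only at hab
        omega
      rw [h2]
      refine le_trans (Finset.sum_le_sum_of_subset ?_) (sum_choose_le s (2 * n + e))
      intro r hr
      rw [Finset.mem_image] at hr
      obtain ⟨k, hk, rfl⟩ := hr
      rw [Finset.mem_range] at hk ⊢
      omega
    rw [← Finset.sum_mul]
    have h3 : (∑ k ∈ Finset.range n, (s.choose (2 * k + e) : ℝ)) ≤ 2 ^ s := by
      exact_mod_cast h1
    calc (∑ k ∈ Finset.range n, (s.choose (2 * k + e) : ℝ)) * (1 / 2 : ℝ) ^ s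
        ≤ 2 ^ s * (1 / 2 : ℝ) ^ s := mul_le_mul_of_nonneg_right h3 (by positivity)
      _ = 1 := by rw [← mul_pow]; norm_num
  · intro n
    have hp : (0 : ℝ) ≤ (1 / 2 : ℝ) ^ s := by positivity
    have := variation_unimodal
      (fun k => (s.choose (2 * k + e) : ℝ) * (1 / 2 : ℝ) ^ s) ((s + 2 - 2 * e) / 4)
      (1 / Real.sqrt (s + 1)) (fun k => by positivity) (fun k => choose_bound s _)
      (by
        intro k hk
        refine mul_le_mul_of_nonneg_right ?_ hp
        have h1 : s.choose (2 * k + e) ≤ s.choose (2 * (k + 1) + e) :=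
          choose_le_of_add_le s _ _ (by omega) (by omega)
        exact_mod_cast h1)
      (by
        intro k hk
        refine mul_le_mul_of_nonneg_right ?_ hp
        have h1 : s.choose (2 * k + e + 2) ≤ s.choose (2 * k + e) :=
          choose_ge_of_le_add s _ (by omega)
        have h2 : 2 * (k + 1) + e = 2 * k + e + 2 := by ring
        rw [h2]
        exact_mod_cast h1) n
    refine this.trans (le_of_eq ?_)
    ring

end Pool.Agent.WIR.H2
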