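import Pool.Agent.WIR.StmtsE

/-!
# WIR row CDR (recursion on the side of the words)
-/

set_option autoImplicit false

open scoped BigOperators

namespace Pool.Agent.WIR.H2

/-- the shift of positions. -/
def sh : ℕ ↪ ℕ := addRightEmbedding 1

theorem sh_apply (p : ℕ) : sh p = p + 1 := rfl

theorem rk_sh (u : Finset ℕ) (p : ℕ) : rk (u.map sh) (p + 1) = rk u p := by
  unfold rk
  rw [Finset.filter_map, Finset.card_map]
  congr 1
  refine Finset.filter_congr ?_
  intro x _
  simp [sh_apply]

theorem one_notMem_sh (u : Finset ℕ) (hu : ∀ x ∈ u, 1 ≤ x) : 1 ∉ u.map sh := by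
  intro h
  rw [Finset.mem_map] at h
  obtain ⟨x, hx, h⟩ := h
  have := hu x hx
  rw [sh_apply] at h
  omega

theorem rk_ins_sh (u : Finset ℕ) (hu : ∀ x ∈ u, 1 ≤ x) (p : ℕ) (hp : 1 ≤ p) :
    rk (insert 1 (u.map sh)) (p + 1) = rk u p + 1 := by
  unfold rk
  rw [Finset.filter_insert, if_pos (by omega), Finset.card_insert_of_notMem]
  · congr 1
    exact rk_sh u p
  · intro h
    exact one_notMem_sh u hu (Finset.mem_filter.1 h).1

theorem rk_ins_one (u : Finset ℕ) :
    rk (insert 1 (u.map sh)) 1 = 0 := by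
  unfold rk
  rw [Finset.card_eq_zero, Finset.filter_eq_empty_iff]
  intro x hx
  rw [Finset.mem_insert, Finset.mem_map] at hx
  rcases hx with rfl | ⟨y, hy, rfl⟩
  · omega
  · rw [sh_apply]; omega

theorem FO_sh (N : ℕ) (u : Finset ℕ) :
    FO N (u.map sh) = (2 : ZMod (3 ^ N))⁻¹ * FO N u := by
  unfold FO
  rw [Finset.sum_map, Finset.mul_sum]
  refine Finset.sum_congr rfl ?_
  intro p _
  rw [sh_apply, rk_sh, pow_succ]
  ring

theorem FO_ins (N : ℕ) (u : Finset ℕ) (hu : ∀ x ∈ u, 1 ≤ x) :
    FO N (insert 1 (u.map sh)) = (2 : ZMod (3 ^ N))⁻¹ + 3 * (2 : ZMod (3 ^ N))⁻¹ * FO N u := by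
  unfold FO
  rw [Finset.sum_insert (one_notMem_sh u hu), rk_ins_one u, pow_zero, one_mul, pow_one,
    Finset.sum_map, Finset.mul_sum]
  congr 1
  refine Finset.sum_congr rfl ?_
  intro p hp
  rw [sh_apply, rk_ins_sh u hu p (hu p hp), pow_succ, pow_succ]
  ring

theorem two_mul_inv (N : ℕ) : (2 : ZMod (3 ^ N)) * (2 : ZMod (3 ^ N))⁻¹ = 1 := by
  have h : Nat.Coprime 2 (3 ^ N) := Nat.Coprime.pow_right N (by norm_num)
  have := ZMod.coe_mul_inv_eq_one 2 h
  exact_mod_cast this

theorem half_eq_iff (N : ℕ) (x y : ZMod (3 ^ N)) :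
    (2 : ZMod (3 ^ N))⁻¹ * x = y ↔ x = 2 * y := by
  constructor
  · rintro rfl
    rw [← mul_assoc, two_mul_inv, one_mul]
  · rintro rfl
    rw [← mul_assoc, mul_comm (2 : ZMod (3 ^ N))⁻¹, two_mul_inv, one_mul]

/-- `3 z = b` in `Z/3^(l+1)`. -/
theorem three_mul_eq (l b : ℕ) (z : ZMod (3 ^ (l + 1))) :
    3 * z = ((b : ℕ) : ZMod (3 ^ (l + 1))) ↔
      3 ∣ b ∧ ZMod.castHom (pow_dvd_pow 3 l.le_succ) (ZMod (3 ^ l)) z
        = ((b / 3 : ℕ) : ZMod (3 ^ l)) := by
  obtain ⟨m, rfl⟩ : ∃ m : ℕ, z = (m : ZMod (3 ^ (l + 1))) := ⟨z.val, by simp⟩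
  have e1 : (3 : ZMod (3 ^ (l + 1))) * (m : ZMod (3 ^ (l + 1)))
      = ((3 * m : ℕ) : ZMod (3 ^ (l + 1))) := by push_cast; ring
  have e2 : ZMod.castHom (pow_dvd_pow 3 l.le_succ) (ZMod (3 ^ l)) (m : ZMod (3 ^ (l + 1)))
      = (m : ZMod (3 ^ l)) := by simp
  rw [e1, e2, ZMod.natCast_eq_natCast_iff, ZMod.natCast_eq_natCast_iff]
  constructor
  · intro h
    have h3 : 3 ∣ b := by
      have h4 : 3 * m ≡ b [MOD 3] := Nat.ModEq.of_dvd (dvd_pow_self 3 (Nat.succ_ne_zero l)) h
      exact (Nat.modEq_zero_iff_dvd.1 (h4.symm.trans (Nat.modEq_zero_iff_dvd.2 (dvd_mul_right 3 m))))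
    obtain ⟨c, rfl⟩ := h3
    refine ⟨dvd_mul_right 3 c, ?_⟩
    have h5 : 3 * c / 3 = c := Nat.mul_div_cancel_left c (by norm_num)
    rw [h5]
    have h6 : 3 * m ≡ 3 * c [MOD 3 * 3 ^ l] := by
      have : 3 ^ (l + 1) = 3 * 3 ^ l := by ring
      rw [← this]
      exact h
    exact Nat.ModEq.mul_left_cancel' (by norm_num) h6
  · rintro ⟨⟨c, rfl⟩, h⟩
    have h5 : 3 * c / 3 = c := Nat.mul_div_cancel_left c (by norm_num)
    rw [h5] at h
    have h6 := Nat.ModEq.mul_left' 3 h
    have : 3 ^ (l + 1) = 3 * 3 ^ l := by ring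
    rw [this]
    exact h6

theorem cast_FO (l : ℕ) (u : Finset ℕ) :
    ZMod.castHom (pow_dvd_pow 3 l.le_succ) (ZMod (3 ^ l)) (FO (l + 1) u) = FO l u := by
  have h2 : ZMod.castHom (pow_dvd_pow 3 l.le_succ) (ZMod (3 ^ l)) ((2 : ZMod (3 ^ (l + 1)))⁻¹)
      = (2 : ZMod (3 ^ l))⁻¹ := by
    have h3 := congrArg (ZMod.castHom (pow_dvd_pow 3 l.le_succ) (ZMod (3 ^ l)))
      (two_mul_inv (l + 1))
    rw [map_mul, map_one, map_ofNat] at h3
    have h4 := (half_eq_iff l 1 (ZMod.castHom (pow_dvd_pow 3 l.le_succ) (ZMod (3 ^ l))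
      ((2 : ZMod (3 ^ (l + 1)))⁻¹))).2 h3.symm
    rw [mul_one] at h4
    exact h4.symm
  unfold FO
  rw [map_sum]
  refine Finset.sum_congr rfl ?_
  intro p _
  rw [map_mul, map_pow, map_pow, h2, map_ofNat]

theorem cnt_sing (M m N : ℕ) (x : ZMod (3 ^ N)) :
    cnt M {m} N x = ((Finset.Icc 1 M).powerset.filter
      (fun O => O.card = m ∧ FO N O = x)).card := by
  unfold cnt
  refine congrArg Finset.card ?_
  ext O
  simp only [Finset.mem_filter, Set.mem_singleton_iff]

theorem Icc_succ_eq (M : ℕ) : Finset.Icc 1 (M + 1) = insert 1 ((Finset.Icc 1 M).map sh) := by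
  ext x
  simp only [Finset.mem_Icc, Finset.mem_insert, Finset.mem_map]
  constructor
  · rintro ⟨h1, h2⟩
    by_cases hx : x = 1
    · exact Or.inl hx
    · exact Or.inr ⟨x - 1, ⟨by omega, by omega⟩, by rw [sh_apply]; omega⟩
  · rintro (rfl | ⟨y, ⟨h1, h2⟩, rfl⟩)
    · omega
    · rw [sh_apply]; omega

/-- **Row CDR**. -/
theorem cdr : CdrStmt := by
  intro l
  refine ⟨?_, ?_, ?_⟩
  · intro y
    rw [cnt_sing]
    have h0 : Finset.Icc 1 0 = (∅ : Finset ℕ) := by simp
    rw [h0, Finset.powerset_empty]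
    by_cases hl : l = 0
    · subst hl
      rw [if_pos rfl, Finset.filter_true_of_mem, Finset.card_singleton]
      intro O hO
      rw [Finset.mem_singleton] at hO
      subst hO
      refine ⟨by simp, ?_⟩
      have : Subsingleton (ZMod (3 ^ 0)) := by
        rw [pow_zero]; infer_instance
      exact Subsingleton.elim _ _
    · rw [if_neg hl, Finset.filter_false_of_mem, Finset.card_empty]
      intro O hO h
      rw [Finset.mem_singleton] at hO
      subst hO
      have := h.1
      rw [Finset.card_empty] at this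
      exact hl this.symm
  · intro M y
    rw [cnt_sing, Finset.card_eq_one]
    refine ⟨∅, ?_⟩
    ext O
    rw [Finset.mem_filter, Finset.mem_singleton, Finset.mem_powerset, Finset.card_eq_zero]
    constructor
    · rintro ⟨_, h, _⟩
      exact h
    · rintro rfl
      refine ⟨Finset.empty_subset _, rfl, ?_⟩
      have : Subsingleton (ZMod (3 ^ 0)) := by
        rw [pow_zero]; infer_instance
      exact Subsingleton.elim _ _
  · intro M a ha
    classical
    have hpos : ∀ u : Finset ℕ, u ⊆ Finset.Icc 1 M → ∀ x ∈ u, 1 ≤ x := by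
      intro u hu x hx
      exact (Finset.mem_Icc.1 (hu hx)).1
    -- the two parts
    have hsplit : cnt (M + 1) {l + 1} (l + 1) ((a : ℕ) : ZMod (3 ^ (l + 1)))
        = cnt M {l + 1} (l + 1) ((2 * a : ℕ) : ZMod (3 ^ (l + 1)))
        + ((Finset.Icc 1 M).powerset.filter (fun O => O.card = l ∧
            3 * FO (l + 1) O = ((2 * a - 1 : ℕ) : ZMod (3 ^ (l + 1))))).card := by
      rw [cnt_sing, cnt_sing]
      have hset : (Finset.Icc 1 (M + 1)).powerset.filter
          (fun O => O.card = l + 1 ∧ FO (l + 1) O = ((a : ℕ) : ZMod (3 ^ (l + 1))))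
          = ((Finset.Icc 1 M).powerset.filter
              (fun O => O.card = l + 1 ∧
                FO (l + 1) O = ((2 * a : ℕ) : ZMod (3 ^ (l + 1))))).image (fun u => u.map sh)
            ∪ ((Finset.Icc 1 M).powerset.filter (fun O => O.card = l ∧
                3 * FO (l + 1) O = ((2 * a - 1 : ℕ) : ZMod (3 ^ (l + 1))))).image
                (fun u => insert 1 (u.map sh)) := by
        have hA : ∀ u : Finset ℕ, FO (l + 1) (u.map sh) = ((a : ℕ) : ZMod (3 ^ (l + 1))) ↔
            FO (l + 1) u = ((2 * a : ℕ) : ZMod (3 ^ (l + 1))) := by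
          intro u
          rw [FO_sh, half_eq_iff]
          push_cast
          rfl
        have hB : ∀ u : Finset ℕ, (∀ x ∈ u, 1 ≤ x) →
            (FO (l + 1) (insert 1 (u.map sh)) = ((a : ℕ) : ZMod (3 ^ (l + 1))) ↔
              3 * FO (l + 1) u = ((2 * a - 1 : ℕ) : ZMod (3 ^ (l + 1)))) := by
          intro u hu
          rw [FO_ins _ u hu]
          have e1 : (2 : ZMod (3 ^ (l + 1)))⁻¹ + 3 * (2 : ZMod (3 ^ (l + 1)))⁻¹ * FO (l + 1) u
              = (2 : ZMod (3 ^ (l + 1)))⁻¹ * (1 + 3 * FO (l + 1) u) := by ring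
          rw [e1, half_eq_iff]
          have e2 : ((2 * a - 1 : ℕ) : ZMod (3 ^ (l + 1)))
              = 2 * ((a : ℕ) : ZMod (3 ^ (l + 1))) - 1 := by
            rw [Nat.cast_sub (by omega)]
            push_cast
            rfl
          rw [e2]
          constructor
          · intro h; rw [← h]; ring
          · intro h; rw [h]; ring
        ext O
        rw [Finset.mem_union, Finset.mem_image, Finset.mem_image, Finset.mem_filter,
          Finset.mem_powerset]
        constructor
        · rintro ⟨hO, hc, hF⟩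
          by_cases h1 : 1 ∈ O
          · right
            have hsub : O.erase 1 ⊆ (Finset.Icc 1 M).map sh := by
              rw [Icc_succ_eq] at hO
              intro x hx
              rw [Finset.mem_erase] at hx
              exact (Finset.mem_insert.1 (hO hx.2)).resolve_left hx.1
            obtain ⟨u, hu, hOu⟩ := Finset.subset_map_iff.1 hsub
            have hO' : O = insert 1 (u.map sh) := by
              rw [← hOu, Finset.insert_erase h1]
            refine ⟨u, ?_, hO'.symm⟩
            rw [Finset.mem_filter, Finset.mem_powerset]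
            refine ⟨hu, ?_, ?_⟩
            · rw [hO', Finset.card_insert_of_notMem (one_notMem_sh u (hpos u hu)),
                Finset.card_map] at hc
              omega
            · rw [hO'] at hF
              exact (hB u (hpos u hu)).1 hF
          · left
            have hsub : O ⊆ (Finset.Icc 1 M).map sh := by
              rw [Icc_succ_eq] at hO
              intro x hx
              refine (Finset.mem_insert.1 (hO hx)).resolve_left ?_
              rintro rfl
              exact h1 hx
            obtain ⟨u, hu, hOu⟩ := Finset.subset_map_iff.1 hsub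
            refine ⟨u, ?_, hOu.symm⟩
            rw [Finset.mem_filter, Finset.mem_powerset]
            refine ⟨hu, ?_, ?_⟩
            · rw [hOu, Finset.card_map] at hc
              exact hc
            · rw [hOu] at hF
              exact (hA u).1 hF
        · rintro (⟨u, hu, rfl⟩ | ⟨u, hu, rfl⟩)
          · rw [Finset.mem_filter, Finset.mem_powerset] at hu
            refine ⟨?_, ?_, (hA u).2 hu.2.2⟩
            · rw [Icc_succ_eq]
              exact (Finset.map_subset_map.2 hu.1).trans (Finset.subset_insert _ _)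
            · rw [Finset.card_map]
              exact hu.2.1
          · rw [Finset.mem_filter, Finset.mem_powerset] at hu
            refine ⟨?_, ?_, (hB u (hpos u hu.1)).2 hu.2.2⟩
            · rw [Icc_succ_eq]
              exact Finset.insert_subset_insert _ (Finset.map_subset_map.2 hu.1)
            · rw [Finset.card_insert_of_notMem (one_notMem_sh u (hpos u hu.1)), Finset.card_map,
                hu.2.1]
      rw [hset, Finset.card_union_of_disjoint, Finset.card_image_of_injOn,
        Finset.card_image_of_injOn]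
      · intro u hu v hv huv
        rw [Finset.mem_coe, Finset.mem_filter, Finset.mem_powerset] at hu hv
        simp only at huv
        have e1 : (insert 1 (u.map sh)).erase 1 = (insert 1 (v.map sh)).erase 1 := by rw [huv]
        rw [Finset.erase_insert (one_notMem_sh u (hpos u hu.1)),
          Finset.erase_insert (one_notMem_sh v (hpos v hv.1))] at e1
        exact Finset.map_injective sh e1
      · intro u _ v _ huv
        exact Finset.map_injective sh huv
      · rw [Finset.disjoint_left]
        intro O hO1 hO2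
        rw [Finset.mem_image] at hO1 hO2
        obtain ⟨u, hu, rfl⟩ := hO1
        obtain ⟨v, _, hv⟩ := hO2
        rw [Finset.mem_filter, Finset.mem_powerset] at hu
        apply one_notMem_sh u (hpos u hu.1)
        rw [← hv]
        exact Finset.mem_insert_self _ _
    rw [hsplit]
    congr 1
    by_cases h3 : 3 ∣ 2 * a - 1
    · rw [if_pos h3]
      rw [cnt_sing]
      congr 1
      refine Finset.filter_congr ?_
      intro O _
      rw [three_mul_eq, cast_FO]
      constructor
      · rintro ⟨h4, _, h5⟩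
        exact ⟨h4, h5⟩
      · rintro ⟨h4, h5⟩
        exact ⟨h4, h3, h5⟩
    · rw [if_neg h3, Finset.card_eq_zero, Finset.filter_eq_empty_iff]
      rintro O _ ⟨_, h5⟩
      exact h3 ((three_mul_eq _ _ _).1 h5).1

end Pool.Agent.WIR.H2
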